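import Pool.Agent.Run7.h565.LC.Stm8

/-!
# Random points of sets and random points of the whole space (`S_CPR`)
-/

set_option autoImplicit false

namespace Run7.h321.LC

open Finset Equiv
open Pool.Agent.TH268.PD (frac Cyc cyOf)
open Pool.Agent.Y998.LP (bfrac)
open Run7.h565.LC

section hybrid

variable {V : Type} [Fintype V]

theorem sum_cons (k : ℕ) (w : Fin (k + 1) → V → ℝ) (Φ : (Fin (k + 1) → V) → ℝ) :
    ∑ b, (∏ i, w i (b i)) * Φ b =
      ∑ y, w 0 y * ∑ c : Fin k → V, (∏ i, w i.succ (c i)) * Φ (Fin.cons y c) := by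
  rw [← (Fin.consEquiv (fun _ : Fin (k + 1) => V)).sum_comp, Fintype.sum_prod_type]
  refine Finset.sum_congr rfl fun y _ => ?_
  rw [Finset.mul_sum]
  refine Finset.sum_congr rfl fun c _ => ?_
  have e : (Fin.consEquiv fun _ : Fin (k + 1) => V) (y, c) = Fin.cons y c := rfl
  rw [e]
  simp only [Fin.prod_univ_succ, Fin.cons_zero, Fin.cons_succ]
  ring

theorem prob_sum (k : ℕ) (w : Fin k → V → ℝ) (hw : ∀ i, ∑ y, w i y = 1) :
    ∑ b : Fin k → V, ∏ i, w i (b i) = 1 := by
  classical
  have h := Finset.prod_univ_sum (fun _ : Fin k => (Finset.univ : Finset V)) w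
  rw [Fintype.piFinset_univ] at h
  rw [← h]
  exact Finset.prod_eq_one fun i _ => hw i

theorem hybrid (k : ℕ) : ∀ (w w' : Fin k → V → ℝ), (∀ i y, 0 ≤ w i y) → (∀ i y, 0 ≤ w' i y) →
    (∀ i, ∑ y, w i y = 1) → (∀ i, ∑ y, w' i y = 1) → ∀ (Φ : (Fin k → V) → ℝ) (E : Fin k → ℝ),
    (∀ i b, |∑ y, (w i y - w' i y) * Φ (Function.update b i y)| ≤ E i) →
    |∑ b, (∏ i, w i (b i)) * Φ b - ∑ b, (∏ i, w' i (b i)) * Φ b| ≤ ∑ i, E i := by
  induction k with
  | zero =>
    intro w w' _ _ _ _ Φ E _
    simp
  | succ k ih =>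
    intro w w' hw hw' hw1 hw1' Φ E h
    rw [sum_cons, sum_cons, Fin.sum_univ_succ]
    have hA : ∀ y, |∑ c : Fin k → V, (∏ i, w i.succ (c i)) * Φ (Fin.cons y c) -
        ∑ c : Fin k → V, (∏ i, w' i.succ (c i)) * Φ (Fin.cons y c)| ≤ ∑ i : Fin k, E i.succ := by
      intro y
      refine ih (fun i => w i.succ) (fun i => w' i.succ) (fun i => hw _) (fun i => hw' _)
        (fun i => hw1 _) (fun i => hw1' _) (fun c => Φ (Fin.cons y c)) (fun i => E i.succ)
        fun i b => ?_
      have h1 := h i.succ (Fin.cons y b)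
      refine le_of_eq_of_le (congrArg _ (Finset.sum_congr rfl fun z _ => ?_)) h1
      rw [Fin.cons_update]
    have hB : |∑ y, (w 0 y - w' 0 y) *
        ∑ c : Fin k → V, (∏ i, w' i.succ (c i)) * Φ (Fin.cons y c)| ≤ E 0 := by
      have e1 : ∑ y, (w 0 y - w' 0 y) *
          ∑ c : Fin k → V, (∏ i, w' i.succ (c i)) * Φ (Fin.cons y c) =
          ∑ c : Fin k → V, (∏ i, w' i.succ (c i)) *
            ∑ y, (w 0 y - w' 0 y) * Φ (Fin.cons y c) := by
        simp only [Finset.mul_sum]
        rw [Finset.sum_comm]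
        refine Finset.sum_congr rfl fun c _ => Finset.sum_congr rfl fun y _ => ?_
        ring
      rw [e1]
      refine (Finset.abs_sum_le_sum_abs _ _).trans ?_
      have e2 : ∀ c : Fin k → V, |(∏ i, w' i.succ (c i)) *
          ∑ y, (w 0 y - w' 0 y) * Φ (Fin.cons y c)| ≤ (∏ i, w' i.succ (c i)) * E 0 := by
        intro c
        rw [abs_mul, abs_of_nonneg (Finset.prod_nonneg fun i _ => hw' _ _)]
        refine mul_le_mul_of_nonneg_left ?_ (Finset.prod_nonneg fun i _ => hw' _ _)
        rcases isEmpty_or_nonempty V with hV | ⟨⟨v0⟩⟩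
        · have := hw1 0
          simp at this
        · have h1 := h 0 (Fin.cons v0 c)
          refine le_of_eq_of_le (congrArg _ (Finset.sum_congr rfl fun z _ => ?_)) h1
          rw [Fin.update_cons_zero]
      refine (Finset.sum_le_sum fun c _ => e2 c).trans ?_
      rw [← Finset.sum_mul, prob_sum k (fun i => w' i.succ) (fun i => hw1' _), one_mul]
    have hC : ∑ y, w 0 y * (∑ c : Fin k → V, (∏ i, w i.succ (c i)) * Φ (Fin.cons y c)) -
        ∑ y, w' 0 y * (∑ c : Fin k → V, (∏ i, w' i.succ (c i)) * Φ (Fin.cons y c)) =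
        ∑ y, w 0 y * (∑ c : Fin k → V, (∏ i, w i.succ (c i)) * Φ (Fin.cons y c) -
          ∑ c : Fin k → V, (∏ i, w' i.succ (c i)) * Φ (Fin.cons y c)) +
        ∑ y, (w 0 y - w' 0 y) *
          ∑ c : Fin k → V, (∏ i, w' i.succ (c i)) * Φ (Fin.cons y c) := by
      rw [← Finset.sum_sub_distrib, ← Finset.sum_add_distrib]
      refine Finset.sum_congr rfl fun y _ => ?_
      ring
    rw [hC]
    refine (abs_add_le _ _).trans ?_
    rw [add_comm (E 0)]
    refine add_le_add ?_ hB
    refine (Finset.abs_sum_le_sum_abs _ _).trans ?_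
    have hD : ∀ y, |w 0 y * (∑ c : Fin k → V, (∏ i, w i.succ (c i)) * Φ (Fin.cons y c) -
          ∑ c : Fin k → V, (∏ i, w' i.succ (c i)) * Φ (Fin.cons y c))| ≤
        w 0 y * ∑ i : Fin k, E i.succ := by
      intro y
      rw [abs_mul, abs_of_nonneg (hw 0 y)]
      exact mul_le_mul_of_nonneg_left (hA y) (hw 0 y)
    refine (Finset.sum_le_sum fun y _ => hD y).trans ?_
    rw [← Finset.sum_mul, hw1, one_mul]

end hybrid

/-- the relation depends on the cycle of the new point only -/
theorem rel_congr {V : Type} [DecidableEq V] {k : ℕ} (g : Perm V) (b : Fin k → V) (i : Fin k)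
    {y z : V} (h : g.SameCycle y z) :
    rel g (Function.update b i y) = rel g (Function.update b i z) := by
  funext a a'
  apply propext
  unfold rel
  have key : ∀ c, g.SameCycle (Function.update b i y c) (Function.update b i z c) := by
    intro c
    by_cases hc : c = i
    · subst hc; simpa using h
    · simp only [Function.update_of_ne hc]
      exact Perm.SameCycle.refl _ _
  exact ⟨fun h1 => ((key a).symm.trans h1).trans (key a'),
    fun h1 => ((key a).trans h1).trans (key a').symm⟩

/-- the relation if the new point is in none of the cycles of the other ones -/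
theorem rel_far {V : Type} [DecidableEq V] {k : ℕ} (g : Perm V) (b : Fin k → V) (i : Fin k)
    {y z : V} (hy : ∀ j, ¬ g.SameCycle y (b j)) (hz : ∀ j, ¬ g.SameCycle z (b j)) :
    rel g (Function.update b i y) = rel g (Function.update b i z) := by
  funext a a'
  apply propext
  unfold rel
  by_cases ha : a = i
  · by_cases ha' : a' = i
    · subst ha; subst ha'
      simp only [Function.update_self]
      exact ⟨fun _ => Perm.SameCycle.refl _ _, fun _ => Perm.SameCycle.refl _ _⟩
    · subst ha
      simp only [Function.update_self, Function.update_of_ne ha']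
      exact ⟨fun h => absurd h (hy _), fun h => absurd h (hz _)⟩
  · by_cases ha' : a' = i
    · subst ha'
      simp only [Function.update_self, Function.update_of_ne ha]
      exact ⟨fun h => absurd h.symm (hy _), fun h => absurd h.symm (hz _)⟩
    · simp only [Function.update_of_ne ha, Function.update_of_ne ha']

/-- sums of functions of the cycle -/
theorem sum_cyc_fun {V : Type} [Fintype V] [DecidableEq V] (g : Perm V) (B : Finset V)
    (G : Cyc g → ℝ) :
    ∑ y, (if y ∈ B then (1 : ℝ) / B.card else 0) * G (cyOf g y) = ∑ γ, G γ * bfrac B g γ := by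
  classical
  have h1 : ∀ γ : Cyc g, G γ * bfrac B g γ =
      ∑ y, (if y ∈ B then (1 : ℝ) / B.card else 0) * (if cyOf g y = γ then G γ else 0) := by
    intro γ
    rw [bfrac_sum, Finset.sum_div, Finset.mul_sum]
    rw [← Finset.sum_subset (Finset.subset_univ B)]
    · refine Finset.sum_congr rfl fun y hy => ?_
      rw [if_pos hy]
      split_ifs <;> ring
    · intro y _ hy
      rw [if_neg hy, zero_mul]
  rw [Finset.sum_congr rfl fun γ _ => h1 γ, Finset.sum_comm]
  refine Finset.sum_congr rfl fun y _ => ?_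
  rw [← Finset.mul_sum, Finset.sum_ite_eq, if_pos (Finset.mem_univ _)]

theorem cpr_step {V : Type} [Fintype V] [DecidableEq V] [Nonempty V] (g : Perm V) (k : ℕ)
    (Q : Finset V) (D : ℝ) (hQ : Q.Nonempty) (hD : ∀ γ : Cyc g, |bfrac Q g γ - frac g γ| ≤ D)
    (Ψ : (Fin k → Fin k → Prop) → ℝ) (M : ℝ) (hM : ∀ R, |Ψ R| ≤ M) (i : Fin k) (b : Fin k → V) :
    |∑ y, ((if y ∈ Q then (1 : ℝ) / Q.card else 0) - 1 / Fintype.card V) *
      Ψ (rel g (Function.update b i y))| ≤ 2 * M * k * D := by
  classical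
  have hN : (Fintype.card V : ℝ) ≠ 0 := by
    have := Fintype.card_pos (α := V)
    positivity
  have hQc : (Q.card : ℝ) ≠ 0 := by
    have := hQ.card_pos
    positivity
  obtain ⟨v0⟩ := ‹Nonempty V›
  have hD0 : 0 ≤ D := (abs_nonneg _).trans (hD (cyOf g v0))
  have hM0 : 0 ≤ M := (abs_nonneg _).trans (hM fun _ _ => True)
  -- the value outside the cycles of the other points
  obtain ⟨F₀, hF₀, hF₀M⟩ : ∃ F₀ : ℝ, (∀ y, (∀ j, ¬ g.SameCycle y (b j)) →
      Ψ (rel g (Function.update b i y)) = F₀) ∧ |F₀| ≤ M := by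
    by_cases h : ∃ z, ∀ j, ¬ g.SameCycle z (b j)
    · obtain ⟨z, hz⟩ := h
      exact ⟨_, fun y hy => by rw [rel_far g b i hy hz], hM (rel g (Function.update b i z))⟩
    · exact ⟨0, fun y hy => absurd ⟨y, hy⟩ h, by simpa using hM0⟩
  obtain ⟨G, hG⟩ : ∃ G : Cyc g → ℝ, ∀ y, G (cyOf g y) =
      Ψ (rel g (Function.update b i y)) - F₀ := by
    refine ⟨fun γ => Ψ (rel g (Function.update b i γ.out)) - F₀, fun y => ?_⟩
    have h1 : g.SameCycle (cyOf g y).out y := by
      rw [← cyOf_eq]
      exact Quotient.out_eq _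
    simp only [rel_congr g b i h1]
  have hG2 : ∀ γ, |G γ| ≤ 2 * M := by
    intro γ
    obtain ⟨y, rfl⟩ := Quotient.exists_rep γ
    have h1 := hG y
    unfold cyOf at h1
    rw [h1]
    refine (abs_sub _ _).trans ?_
    have := hM (rel g (Function.update b i y))
    linarith
  have hG0 : ∀ γ, γ ∉ Finset.univ.image (fun j => cyOf g (b j)) → G γ = 0 := by
    intro γ hγ
    obtain ⟨y, rfl⟩ := Quotient.exists_rep γ
    have h1 := hG y
    unfold cyOf at h1
    rw [h1, hF₀ y, sub_self]
    intro j hj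
    refine hγ (Finset.mem_image.2 ⟨j, Finset.mem_univ _, ?_⟩)
    exact ((cyOf_eq g _ _).2 hj.symm)
  have hW : ∑ y, ((if y ∈ Q then (1 : ℝ) / Q.card else 0) - 1 / Fintype.card V) = 0 := by
    rw [Finset.sum_sub_distrib, Finset.sum_ite_mem, Finset.univ_inter, Finset.sum_const,
      Finset.sum_const, Finset.card_univ, nsmul_eq_mul, nsmul_eq_mul, mul_one_div_cancel hQc,
      mul_one_div_cancel hN, sub_self]
  have h1 : ∑ y, ((if y ∈ Q then (1 : ℝ) / Q.card else 0) - 1 / Fintype.card V) *
      Ψ (rel g (Function.update b i y)) =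
      ∑ y, ((if y ∈ Q then (1 : ℝ) / Q.card else 0) - 1 / Fintype.card V) * G (cyOf g y) := by
    have h2 : ∑ y, ((if y ∈ Q then (1 : ℝ) / Q.card else 0) - 1 / Fintype.card V) * F₀ = 0 := by
      rw [← Finset.sum_mul, hW, zero_mul]
    refine (sub_zero _).symm.trans ?_
    refine (congrArg (fun z => _ - z) h2.symm).trans ?_
    rw [← Finset.sum_sub_distrib]
    refine Finset.sum_congr rfl fun y _ => ?_
    rw [hG]
    ring
  have h3 : ∑ y, ((if y ∈ Q then (1 : ℝ) / Q.card else 0) - 1 / Fintype.card V) *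
      G (cyOf g y) = ∑ γ, G γ * (bfrac Q g γ - frac g γ) := by
    have e1 := sum_cyc_fun g Q G
    have e2 := sum_cyc_fun g Finset.univ G
    rw [← frac_bfrac] at e2
    simp only [Finset.mem_univ, if_true, Finset.card_univ] at e2
    simp only [sub_mul, mul_sub, Finset.sum_sub_distrib]
    rw [e1, e2]
  rw [h1, h3]
  rw [← Finset.sum_subset (Finset.subset_univ (Finset.univ.image fun j => cyOf g (b j)))]
  · refine (Finset.abs_sum_le_sum_abs _ _).trans ?_
    refine (Finset.sum_le_sum fun γ _ => (?_ : _ ≤ 2 * M * D)).trans ?_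
    · rw [abs_mul]
      exact mul_le_mul (hG2 γ) (hD γ) (abs_nonneg _) (by positivity)
    · rw [Finset.sum_const, nsmul_eq_mul]
      have h5 : ((Finset.univ.image fun j => cyOf g (b j)).card : ℝ) ≤ k := by
        have := Finset.card_image_le (s := Finset.univ) (f := fun j => cyOf g (b j))
        rw [Finset.card_univ, Fintype.card_fin] at this
        exact_mod_cast this
      calc ((Finset.univ.image fun j => cyOf g (b j)).card : ℝ) * (2 * M * D) ≤
            k * (2 * M * D) := mul_le_mul_of_nonneg_right h5 (by positivity)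
        _ = _ := by ring
  · intro γ _ hγ
    rw [hG0 γ hγ, zero_mul]

theorem cpr : S_CPR := by
  intro V _ _ _ g k Q D hQ hD Ψ M hM
  have hN : (Fintype.card V : ℝ) ≠ 0 := by
    have := Fintype.card_pos (α := V)
    positivity
  have hQc : ∀ i, ((Q i).card : ℝ) ≠ 0 := fun i => by
    have := (hQ i).card_pos
    positivity
  have key := hybrid k (fun i y => if y ∈ Q i then (1 : ℝ) / (Q i).card else 0)
    (fun _ _ => 1 / Fintype.card V) (fun i y => by positivity) (fun i y => by positivity)
    (fun i => by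
      rw [Finset.sum_ite_mem, Finset.univ_inter, Finset.sum_const, nsmul_eq_mul,
        mul_one_div_cancel (hQc i)])
    (fun i => by
      rw [Finset.sum_const, nsmul_eq_mul, Finset.card_univ, mul_one_div_cancel hN])
    (fun b => Ψ (rel g b)) (fun i => 2 * M * k * D i)
    (fun i b => cpr_step g k (Q i) (D i) (hQ i) (hD i) Ψ M hM i b)
  refine (le_of_eq_of_le (congrArg _ ?_) key).trans_eq (Finset.mul_sum _ _ _).symm
  congr 1
  · rw [Finset.sum_div, ← Finset.sum_subset (Finset.subset_univ (Fintype.piFinset Q))]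
    · refine Finset.sum_congr rfl fun b hb => ?_
      have e : ∀ i, (if b i ∈ Q i then (1 : ℝ) / (Q i).card else 0) = 1 / (Q i).card :=
        fun i => if_pos (Fintype.mem_piFinset.1 hb i)
      rw [Finset.prod_congr rfl fun i _ => e i, Finset.prod_div_distrib, Finset.prod_const_one]
      ring
    · intro b _ hb
      rw [Fintype.mem_piFinset] at hb
      push Not at hb
      obtain ⟨i, hi⟩ := hb
      rw [Finset.prod_eq_zero (Finset.mem_univ i) (if_neg hi), zero_mul]
  · rw [Finset.sum_div]
    refine Finset.sum_congr rfl fun b _ => ?_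
    rw [Finset.prod_const, Finset.card_univ, Fintype.card_fin, div_pow, one_pow]
    ring

end Run7.h321.LC
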