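import Pool.Agent.Run7.h565.LC.Stm8
import Pool.Agent.TH268.PD.Var
import Pool.Agent.TH268.PD.Bad

/-!
# The length of the cycle of a point is uniform (`S_UNI`)
-/

set_option autoImplicit false

namespace Run7.h321.LC

open Finset Equiv
open Pool.Agent.TH268.PD (frac Cyc cyOf perm_rec)
open Pool.Agent.Y998.ST (stirExp stirLaw exp_mono exp_const exp_sum exp_nonneg)
open Run7.h565.LC
open Q292.LC (cyc)

section law

theorem double_sum (k : ℕ) (f : ℕ → ℝ) :
    ∑ l ∈ Icc 1 k, (l * f l + ∑ j ∈ Icc 1 (k - l), f j) = k * ∑ j ∈ Icc 1 k, f j := by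
  rw [Finset.sum_add_distrib]
  have h1 : ∑ l ∈ Icc 1 k, ∑ j ∈ Icc 1 (k - l), f j = ∑ j ∈ Icc 1 k, ∑ l ∈ Icc 1 (k - j), f j := by
    refine Finset.sum_comm' fun l j => ?_
    simp only [Finset.mem_Icc]
    omega
  rw [h1, Finset.mul_sum, ← Finset.sum_add_distrib]
  refine Finset.sum_congr rfl fun j hj => ?_
  rw [Finset.sum_const, Nat.card_Icc, nsmul_eq_mul]
  have h2 : j ≤ k := (Finset.mem_Icc.1 hj).2
  have h3 : k - j + 1 - 1 = k - j := by omega
  rw [h3, Nat.cast_sub h2]
  ring

theorem part_mean (k : ℕ) (f : ℕ → ℚ) :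
    (∑ σ : Perm (Fin k), (((σ.partition.parts.map fun c : ℕ => (c : ℚ) * f c).sum : ℚ) : ℝ)) /
      (k.factorial : ℝ) = ∑ l ∈ Icc 1 k, (f l : ℝ) := by
  induction k using Nat.strong_induction_on with
  | _ k ih =>
    rcases Nat.eq_zero_or_pos k with rfl | hk
    · have h := Pool.Agent.TH268.PD.Unif.EP_zero
        (fun s => (((s.map fun c : ℕ => (c : ℚ) * f c).sum : ℚ) : ℝ))
      unfold Pool.Agent.TH268.PD.Unif.EP at h
      rw [h]
      simp
    · rw [perm_rec k hk (fun s => (((s.map fun c : ℕ => (c : ℚ) * f c).sum : ℚ) : ℝ))]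
      have h1 : ∀ l ∈ Icc 1 k, (∑ σ : Perm (Fin (k - l)),
          ((((l ::ₘ σ.partition.parts).map fun c : ℕ => (c : ℚ) * f c).sum : ℚ) : ℝ)) /
            ((k - l).factorial : ℝ) = l * (f l : ℝ) + ∑ j ∈ Icc 1 (k - l), (f j : ℝ) := by
        intro l hl
        rw [Finset.mem_Icc] at hl
        rw [← ih (k - l) (by omega)]
        have hf : ((k - l).factorial : ℝ) ≠ 0 := by
          exact_mod_cast (Nat.factorial_pos _).ne'
        have h2 : ∀ σ : Perm (Fin (k - l)),
            ((((l ::ₘ σ.partition.parts).map fun c : ℕ => (c : ℚ) * f c).sum : ℚ) : ℝ) =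
              l * (f l : ℝ) + (((σ.partition.parts.map fun c : ℕ => (c : ℚ) * f c).sum : ℚ) : ℝ) := by
          intro σ
          rw [Multiset.map_cons, Multiset.sum_cons]
          push_cast
          ring
        have hc : Fintype.card (Perm (Fin (k - l))) = (k - l).factorial := by
          rw [Fintype.card_perm, Fintype.card_fin]
        rw [Finset.sum_congr rfl fun σ _ => h2 σ, Finset.sum_add_distrib, Finset.sum_const,
          Finset.card_univ, hc, nsmul_eq_mul, add_div, mul_div_cancel_left₀ _ hf]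
      rw [Finset.sum_congr rfl h1, double_sum k (fun l => (f l : ℝ))]
      have hk0 : (k : ℝ) ≠ 0 := by positivity
      rw [mul_div_cancel_left₀ _ hk0]

/-- size of the class of `i` -/
noncomputable def sz {k : ℕ} (R : Fin k → Fin k → Prop) (i : Fin k) : ℕ := Nat.card {j // R i j}

theorem sum_parts {k : ℕ} (σ : Perm (Fin k)) (f : ℕ → ℚ) :
    ∑ i : Fin k, f (sz (fun a b => σ.SameCycle a b) i) =
      (σ.partition.parts.map fun c : ℕ => (c : ℚ) * f c).sum := by
  classical
  have : Finite (Cyc σ) := Quotient.finite _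
  have : Fintype (Cyc σ) := Fintype.ofFinite _
  rw [← Pool.Agent.TH268.PD.Rec.sum_cyc σ (fun c : ℕ => (c : ℚ) * f c)]
  rw [← Finset.sum_fiberwise (s := (univ : Finset (Fin k))) (g := cyOf σ)]
  refine Finset.sum_congr rfl fun γ _ => ?_
  have h1 : ∀ i ∈ univ.filter (fun i => cyOf σ i = γ),
      f (sz (fun a b => σ.SameCycle a b) i) = f (Nat.card {w : Fin k // cyOf σ w = γ}) := by
    intro i hi
    rw [Finset.mem_filter] at hi
    congr 1
    unfold sz
    refine Nat.card_congr (Equiv.subtypeEquivRight fun j => ?_)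
    rw [← hi.2, cyOf_eq]
    exact ⟨fun h => h.symm, fun h => h.symm⟩
  rw [Finset.sum_congr rfl h1, Finset.sum_const, nsmul_eq_mul]
  congr 2
  rw [Nat.card_eq_fintype_card, Fintype.card_subtype]

theorem sum_sym {k : ℕ} (i i' : Fin k) (F : ℕ → ℝ) :
    ∑ σ : Perm (Fin k), F (sz (fun a b => σ.SameCycle a b) i) =
      ∑ σ : Perm (Fin k), F (sz (fun a b => σ.SameCycle a b) i') := by
  rw [← (MulAut.conj (swap i i')).toEquiv.sum_comp]
  refine Finset.sum_congr rfl fun σ _ => ?_
  congr 1
  unfold sz
  refine Nat.card_congr ((swap i i').subtypeEquiv fun j => ?_)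
  simp only [MulEquiv.toEquiv_eq_coe, EquivLike.coe_coe, MulAut.conj_apply]
  rw [Perm.sameCycle_conj]
  simp

theorem uni_sz (k : ℕ) (i : Fin k) (f : ℕ → ℚ) :
    uni k (fun R => (f (sz R i) : ℝ)) = (∑ l ∈ Icc 1 k, (f l : ℝ)) / k := by
  have hk : (k : ℝ) ≠ 0 := by
    have := i.pos
    positivity
  rw [← part_mean k f, eq_div_iff hk]
  unfold uni
  rw [div_mul_eq_mul_div]
  congr 1
  have h1 : ∀ σ : Perm (Fin k), (((σ.partition.parts.map fun c : ℕ => (c : ℚ) * f c).sum : ℚ) : ℝ) =
      ∑ i' : Fin k, (f (sz (fun a b => σ.SameCycle a b) i') : ℝ) := by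
    intro σ
    rw [← sum_parts]
    push_cast
    rfl
  rw [Finset.sum_congr rfl fun σ _ => h1 σ, Finset.sum_comm,
    Finset.sum_congr rfl fun i' _ => sum_sym i' i (fun n => (f n : ℝ)), Finset.sum_const,
    Finset.card_univ, Fintype.card_fin, nsmul_eq_mul, mul_comm]

/-- the indicator of a small class -/
noncomputable def ind (T : ℝ) (n : ℕ) : ℝ := if (n : ℝ) ≤ T then 1 else 0

theorem uni_ind (k : ℕ) (i : Fin k) (T : ℝ) :
    uni k (fun R => ind T (sz R i)) = (∑ l ∈ Icc 1 k, ind T l) / k := by
  have h := uni_sz k i (fun n => if (n : ℝ) ≤ T then 1 else 0)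
  have e : ∀ n : ℕ, (((if (n : ℝ) ≤ T then 1 else 0 : ℚ)) : ℝ) = ind T n := by
    intro n
    unfold ind
    split_ifs <;> simp
  simp only [e] at h
  exact h

theorem sum_ind_le (k : ℕ) (T : ℝ) (hT : 0 ≤ T) : ∑ l ∈ Icc 1 k, ind T l ≤ T := by
  have h1 : ∑ l ∈ Icc 1 k, ind T l ≤ ∑ l ∈ Icc 1 ⌊T⌋₊, (1 : ℝ) := by
    have h2 : ∑ l ∈ Icc 1 k, ind T l = ∑ l ∈ (Icc 1 k).filter (fun l : ℕ => (l : ℝ) ≤ T), (1 : ℝ) := by
      rw [Finset.sum_filter]
      rfl
    rw [h2]
    refine Finset.sum_le_sum_of_subset_of_nonneg ?_ fun _ _ _ => zero_le_one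
    intro l hl
    rw [Finset.mem_filter, Finset.mem_Icc] at hl
    rw [Finset.mem_Icc]
    exact ⟨hl.1.1, Nat.le_floor hl.2⟩
  refine h1.trans ?_
  rw [Finset.sum_const, Nat.card_Icc, nsmul_eq_mul, mul_one, Nat.add_sub_cancel]
  exact Nat.floor_le hT

theorem le_sum_ind (k : ℕ) (T : ℝ) (hT : T ≤ k) : T - 1 ≤ ∑ l ∈ Icc 1 k, ind T l := by
  have h1 : ∑ l ∈ Icc 1 ⌊T⌋₊, (1 : ℝ) ≤ ∑ l ∈ Icc 1 k, ind T l := by
    have h2 : ∑ l ∈ Icc 1 k, ind T l = ∑ l ∈ (Icc 1 k).filter (fun l : ℕ => (l : ℝ) ≤ T), (1 : ℝ) := by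
      rw [Finset.sum_filter]
      rfl
    rw [h2]
    refine Finset.sum_le_sum_of_subset_of_nonneg ?_ fun _ _ _ => zero_le_one
    intro l hl
    rw [Finset.mem_Icc] at hl
    rw [Finset.mem_filter, Finset.mem_Icc]
    have h3 : (l : ℝ) ≤ T := by
      rcases le_or_gt 0 T with h0 | h0
      · exact (Nat.cast_le.2 hl.2).trans (Nat.floor_le h0)
      · rw [Nat.floor_of_nonpos h0.le] at hl
        omega
    exact ⟨⟨hl.1, by exact_mod_cast h3.trans hT⟩, h3⟩
  refine le_trans ?_ h1
  rw [Finset.sum_const, Nat.card_Icc, nsmul_eq_mul, mul_one, Nat.add_sub_cancel]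
  have := Nat.lt_floor_add_one T
  linarith

end law

section sample

variable {V : Type} [Fintype V] [DecidableEq V]

/-- the fraction of the sample in the cycle of `x` -/
noncomputable def sf {k : ℕ} (g : Perm V) (x : V) (b : Fin k → V) : ℝ :=
  (Nat.card {l : Fin k // g.SameCycle x (b l)} : ℝ) / k

theorem cheb (g : Perm V) (x : V) (k : ℕ) (hk : 0 < k) :
    ∑ b : Fin k → V, (((cyc g x).card : ℝ) / Fintype.card V - sf g x b) ^ 2 ≤
      (Fintype.card V : ℝ) ^ k / k := by
  classical
  have : Nonempty V := ⟨x⟩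
  refine le_trans ?_ (Pool.Agent.TH268.PD.var_bound (fun v : V => decide (g.SameCycle x v)) k hk)
  refine Finset.sum_le_sum fun b _ => ?_
  refine le_trans (le_of_eq ?_) (Finset.single_le_sum (fun γ _ => sq_nonneg _)
    (Finset.mem_univ true))
  have e1 : ((cyc g x).card : ℝ) = (Nat.card {v : V // decide (g.SameCycle x v) = true} : ℝ) := by
    norm_cast
    rw [Nat.card_eq_fintype_card, Fintype.card_subtype]
    unfold cyc
    congr 1
    ext y
    simp
  have e2 : sf g x b = (Nat.card {l : Fin k // decide (g.SameCycle x (b l)) = true} : ℝ) / k := by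
    unfold sf
    congr 2
    exact Nat.card_congr (Equiv.subtypeEquivRight fun l => by simp)
  rw [e1, e2]

theorem sz_sf {k : ℕ} (g : Perm V) (x : V) (i : Fin k) (b : Fin k → V) :
    (sz (rel g (Function.update b i x)) i : ℝ) ≤ k * sf g x b + 1 ∧
      k * sf g x b ≤ sz (rel g (Function.update b i x)) i := by
  classical
  have hk : (k : ℝ) ≠ 0 := by
    have := i.pos
    positivity
  have e0 : (k : ℝ) * sf g x b = ((univ.filter fun l => g.SameCycle x (b l)).card : ℝ) := by
    unfold sf
    rw [mul_div_cancel₀ _ hk, Nat.card_eq_fintype_card, Fintype.card_subtype]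
  have e1 : sz (rel g (Function.update b i x)) i =
      (univ.filter fun l => g.SameCycle x (Function.update b i x l)).card := by
    unfold sz rel
    rw [Nat.card_eq_fintype_card, Fintype.card_subtype]
    congr 1
    ext l
    simp
  rw [e0, e1]
  constructor
  · have h1 : (univ.filter fun l => g.SameCycle x (Function.update b i x l)) ⊆
        insert i (univ.filter fun l => g.SameCycle x (b l)) := by
      intro l hl
      rw [Finset.mem_filter] at hl
      rw [Finset.mem_insert, Finset.mem_filter]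
      by_cases hli : l = i
      · exact Or.inl hli
      · refine Or.inr ⟨Finset.mem_univ _, ?_⟩
        simpa [Function.update_of_ne hli] using hl.2
    have h2 := (Finset.card_le_card h1).trans (Finset.card_insert_le _ _)
    exact_mod_cast h2
  · have h1 : (univ.filter fun l => g.SameCycle x (b l)) ⊆
        (univ.filter fun l => g.SameCycle x (Function.update b i x l)) := by
      intro l hl
      rw [Finset.mem_filter] at hl ⊢
      refine ⟨Finset.mem_univ _, ?_⟩
      by_cases hli : l = i
      · subst hli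
        simp only [Function.update_self]
        exact Perm.SameCycle.refl _ _
      · simpa [Function.update_of_ne hli] using hl.2
    exact_mod_cast Finset.card_le_card h1

theorem noninj_upd (k : ℕ) (i : Fin k) (x : V) :
    ((univ.filter fun b : Fin k → V => ¬ Function.Injective (Function.update b i x)).card : ℝ) ≤
      (k : ℝ) ^ 2 * (Fintype.card V : ℝ) ^ (k - 1) := by
  classical
  have key := Pool.Agent.TH268.PD.Bad.union_bound
    (fun b : Fin k → V => ¬ Function.Injective (Function.update b i x))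
    ((univ : Finset (Fin k)) ×ˢ (univ : Finset (Fin k)))
    (fun z => if z.1 = z.2 then ∅ else if z.1 = i then
      univ.filter (fun b : Fin k → V => b z.2 = (fun _ => x) (b z.1)) else
      univ.filter (fun b : Fin k → V => b z.2 = id (b z.1)))
    (Fintype.card V ^ (k - 1)) (by
      intro z _
      split_ifs with h h2
      · simp
      · exact Pool.Agent.TH268.PD.Bad.card_eq_le k z.1 z.2 h (fun _ : V => x)
      · exact Pool.Agent.TH268.PD.Bad.card_eq_le k z.1 z.2 h id) (by
      intro b hb
      unfold Function.Injective at hb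
      push Not at hb
      obtain ⟨a, l, hal, hne⟩ := hb
      by_cases ha : a = i
      · refine ⟨(a, l), by simp, ?_⟩
        rw [if_neg hne, if_pos ha, Finset.mem_filter]
        refine ⟨Finset.mem_univ _, ?_⟩
        subst ha
        rw [Function.update_self, Function.update_of_ne (Ne.symm hne)] at hal
        exact hal.symm
      · by_cases hl : l = i
        · refine ⟨(l, a), by simp, ?_⟩
          rw [if_neg (Ne.symm hne), if_pos hl, Finset.mem_filter]
          refine ⟨Finset.mem_univ _, ?_⟩
          subst hl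
          rw [Function.update_self, Function.update_of_ne hne] at hal
          exact hal
        · refine ⟨(a, l), by simp, ?_⟩
          rw [if_neg hne, if_neg ha, Finset.mem_filter]
          refine ⟨Finset.mem_univ _, ?_⟩
          rw [Function.update_of_ne ha, Function.update_of_ne hl] at hal
          exact hal.symm)
  rw [Nat.card_eq_fintype_card, Fintype.card_subtype, Finset.card_product, Finset.card_univ,
    Fintype.card_fin] at key
  calc ((univ.filter fun b : Fin k → V => ¬ Function.Injective (Function.update b i x)).card : ℝ) ≤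
        ((k * k * Fintype.card V ^ (k - 1) : ℕ) : ℝ) := by exact_mod_cast key
    _ = _ := by push_cast; ring

end sample

theorem uni_main : S_UNI := by
  intro ε hε
  obtain ⟨e, he⟩ : ∃ e, e = ε / 8 := ⟨_, rfl⟩
  have he0 : 0 < e := by rw [he]; positivity
  obtain ⟨k, hk1, hk⟩ : ∃ k : ℕ, 0 < k ∧ 2 / e ^ 3 + 2 / e ≤ k := by
    obtain ⟨k, hk⟩ := exists_nat_ge (2 / e ^ 3 + 2 / e)
    refine ⟨k, ?_, hk⟩
    have h : (0 : ℝ) < k := lt_of_lt_of_le (by positivity) hk
    exact_mod_cast h
  have hkR : (0 : ℝ) < k := by exact_mod_cast hk1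
  have hke : 1 / (k * e ^ 2) ≤ e := by
    rw [div_le_iff₀ (by positivity)]
    have h1 : 2 / e ^ 3 ≤ k := le_trans (by have : 0 < 2 / e := by positivity
                                            linarith) hk
    rw [div_le_iff₀ (by positivity)] at h1
    nlinarith
  have hk2 : 2 / k ≤ e := by
    rw [div_le_iff₀ hkR]
    have h1 : 2 / e ≤ k := le_trans (by have : 0 < 2 / e ^ 3 := by positivity
                                        linarith) hk
    rw [div_le_iff₀ he0] at h1
    linarith
  obtain ⟨N₀, hN₀⟩ := exists_nat_ge ((k : ℝ) ^ 2 / e)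
  have hN₀0 : 0 < N₀ := by
    have : (0 : ℝ) < N₀ := lt_of_lt_of_le (by positivity) hN₀
    exact_mod_cast this
  refine ⟨k, N₀, e, he0, hN₀0, ?_⟩
  intro V _ _ J hJ t ht hN hyp x u hu0 hu1
  classical
  obtain ⟨N, hNd⟩ : ∃ N : ℝ, N = Fintype.card V := ⟨_, rfl⟩
  have hNpos : 0 < N := by
    rw [hNd]
    exact_mod_cast lt_of_lt_of_le hN₀0 hN
  have hNk : (k : ℝ) ^ 2 / N ≤ e := by
    rw [div_le_iff₀ hNpos]
    have h1 : (k : ℝ) ^ 2 ≤ N₀ * e := by rwa [div_le_iff₀ he0] at hN₀
    have h2 : (N₀ : ℝ) ≤ N := by rw [hNd]; exact_mod_cast hN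
    nlinarith
  obtain ⟨i, -⟩ : ∃ i : Fin k, i = ⟨0, hk1⟩ := ⟨_, rfl⟩
  obtain ⟨p, hp⟩ : ∃ p : Perm V → ℝ, p = fun g => ((cyc g x).card : ℝ) / N := ⟨_, rfl⟩
  obtain ⟨I, hI⟩ : ∃ I : Perm V → ℝ, I = fun g =>
      if ((cyc g x).card : ℝ) ≤ u * Fintype.card V then 1 else 0 := ⟨_, rfl⟩
  have hIp : ∀ g, I g = if p g ≤ u then 1 else 0 := by
    intro g
    rw [hI, hp]
    simp only
    rw [← hNd]
    congr 1
    rw [div_le_iff₀ hNpos]
  have hnn : ∀ T n, 0 ≤ ind T n := fun T n => by unfold ind; split_ifs <;> norm_num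
  have hn1 : ∀ T n, ind T n ≤ 1 := fun T n => by unfold ind; split_ifs <;> norm_num
  have hnabs : ∀ T n, |ind T n| ≤ 1 := fun T n => abs_le.2 ⟨by linarith [hnn T n], hn1 T n⟩
  -- pointwise comparisons
  have hup : ∀ g (b : Fin k → V), I g ≤
      ind ((u + e) * k + 1) (sz (rel g (Function.update b i x)) i) +
        (p g - sf g x b) ^ 2 / e ^ 2 := by
    intro g b
    rw [hIp]
    have hsq : 0 ≤ (p g - sf g x b) ^ 2 / e ^ 2 := by positivity
    by_cases hpu : p g ≤ u
    · rw [if_pos hpu]
      by_cases hs : (sz (rel g (Function.update b i x)) i : ℝ) ≤ (u + e) * k + 1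
      · unfold ind
        rw [if_pos hs]
        linarith
      · unfold ind
        rw [if_neg hs, zero_add]
        rw [not_le] at hs
        have h1 := (sz_sf g x i b).1
        have h2 : (u + e) * k < k * sf g x b := by linarith
        have h3 : u + e < sf g x b := by
          rw [mul_comm] at h2
          exact lt_of_mul_lt_mul_left h2 hkR.le
        rw [le_div_iff₀ (by positivity), one_mul]
        nlinarith
    · rw [if_neg hpu]
      have := hnn ((u + e) * k + 1) (sz (rel g (Function.update b i x)) i)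
      linarith
  have hlo : ∀ g (b : Fin k → V),
      ind ((u - e) * k - 1) (sz (rel g (Function.update b i x)) i) ≤ I g +
        (p g - sf g x b) ^ 2 / e ^ 2 := by
    intro g b
    rw [hIp]
    have hsq : 0 ≤ (p g - sf g x b) ^ 2 / e ^ 2 := by positivity
    by_cases hpu : p g ≤ u
    · rw [if_pos hpu]
      have := hn1 ((u - e) * k - 1) (sz (rel g (Function.update b i x)) i)
      linarith
    · rw [if_neg hpu, zero_add]
      by_cases hs : (sz (rel g (Function.update b i x)) i : ℝ) ≤ (u - e) * k - 1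
      · unfold ind
        rw [if_pos hs]
        rw [not_le] at hpu
        have h1 := (sz_sf g x i b).2
        have h2 : k * sf g x b < (u - e) * k := by linarith
        have h3 : sf g x b < u - e := by
          rw [mul_comm (u - e)] at h2
          exact lt_of_mul_lt_mul_left h2 hkR.le
        rw [le_div_iff₀ (by positivity), one_mul]
        nlinarith
      · unfold ind
        rw [if_neg hs]
        exact hsq
  -- averages over the sample
  have hcard : ((univ : Finset (Fin k → V)).card : ℝ) = N ^ k := by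
    rw [Finset.card_univ, Fintype.card_fun, Fintype.card_fin, hNd]
    push_cast
    rfl
  have hNk0 : 0 < N ^ k := by positivity
  have hch : ∀ g, ∑ b : Fin k → V, (p g - sf g x b) ^ 2 / e ^ 2 ≤ N ^ k * e := by
    intro g
    rw [← Finset.sum_div]
    have h1 := cheb g x k hk1
    rw [← hNd] at h1
    have h2 : ∑ b : Fin k → V, (p g - sf g x b) ^ 2 ≤ N ^ k / k := by
      rw [hp]
      exact h1
    calc (∑ b : Fin k → V, (p g - sf g x b) ^ 2) / e ^ 2 ≤ N ^ k / k / e ^ 2 :=
          div_le_div_of_nonneg_right h2 (by positivity)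
      _ = N ^ k * (1 / (k * e ^ 2)) := by field_simp
      _ ≤ N ^ k * e := mul_le_mul_of_nonneg_left hke hNk0.le
  obtain ⟨nb, hnb⟩ : ∃ nb : ℝ, nb = ((univ.filter fun b : Fin k → V =>
      ¬ Function.Injective (Function.update b i x)).card : ℝ) := ⟨_, rfl⟩
  have hnb1 : nb ≤ N ^ k * e := by
    have h1 := noninj_upd k i x
    rw [← hnb, ← hNd] at h1
    refine h1.trans ?_
    have h2 : N ^ k = N * N ^ (k - 1) := by
      rw [← pow_succ', Nat.sub_add_cancel hk1]
    rw [div_le_iff₀ hNpos] at hNk
    rw [h2]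
    have h3 : 0 < N ^ (k - 1) := by positivity
    nlinarith
  have hU1 : ∀ T, uni k (fun R => ind T (sz R i)) ≤ 1 := by
    intro T
    rw [uni_ind, div_le_one hkR]
    refine (Finset.sum_le_sum fun l _ => hn1 T l).trans ?_
    rw [Finset.sum_const, Nat.card_Icc, nsmul_eq_mul, mul_one, Nat.add_sub_cancel]
  have hU0 : ∀ T, 0 ≤ uni k (fun R => ind T (sz R i)) := by
    intro T
    rw [uni_ind]
    exact div_nonneg (Finset.sum_nonneg fun l _ => hnn T l) hkR.le
  have hav : ∀ T, |∑ b : Fin k → V,
      stirExp J t (fun g => ind T (sz (rel g (Function.update b i x)) i)) -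
        N ^ k * uni k (fun R => ind T (sz R i))| ≤ N ^ k * e + N ^ k * e := by
    intro T
    have h1 : N ^ k * uni k (fun R => ind T (sz R i)) =
        ∑ _b : Fin k → V, uni k (fun R => ind T (sz R i)) := by
      rw [Finset.sum_const, nsmul_eq_mul, hcard]
    rw [h1, ← Finset.sum_sub_distrib]
    refine (Finset.abs_sum_le_sum_abs _ _).trans ?_
    have h2 : ∀ b : Fin k → V, |stirExp J t (fun g =>
        ind T (sz (rel g (Function.update b i x)) i)) - uni k (fun R => ind T (sz R i))| ≤
        e + (if ¬ Function.Injective (Function.update b i x) then 1 else 0) := by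
      intro b
      by_cases hb : Function.Injective (Function.update b i x)
      · rw [if_neg (not_not.2 hb), add_zero]
        exact hyp _ hb (fun R => ind T (sz R i)) (fun R => hnabs _ _)
      · rw [if_pos hb]
        have h3 : stirExp J t (fun g => ind T (sz (rel g (Function.update b i x)) i)) ≤ 1 :=
          (exp_mono hJ ht fun g => hn1 T _).trans_eq (exp_const J t 1)
        have h4 : 0 ≤ stirExp J t (fun g => ind T (sz (rel g (Function.update b i x)) i)) :=
          exp_nonneg hJ ht fun g => hnn T _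
        rw [abs_le]
        constructor
        · linarith [hU1 T]
        · linarith [hU0 T]
    refine (Finset.sum_le_sum fun b _ => h2 b).trans ?_
    rw [Finset.sum_add_distrib, Finset.sum_const, nsmul_eq_mul, hcard, Finset.sum_boole, ← hnb]
    linarith
  -- upper bound
  have hPu : N ^ k * stirExp J t I ≤ ∑ b : Fin k → V,
      stirExp J t (fun g => ind ((u + e) * k + 1) (sz (rel g (Function.update b i x)) i)) +
        N ^ k * e := by
    have h1 : N ^ k * stirExp J t I = stirExp J t (fun g => ∑ _b : Fin k → V, I g) := by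
      rw [← exp_sum, Finset.sum_const, nsmul_eq_mul, hcard]
    have h2 : ∑ b : Fin k → V, stirExp J t (fun g => ind ((u + e) * k + 1)
        (sz (rel g (Function.update b i x)) i)) + N ^ k * e = stirExp J t (fun g =>
          ∑ b : Fin k → V, ind ((u + e) * k + 1) (sz (rel g (Function.update b i x)) i) +
            N ^ k * e) := by
      rw [exp_sum]
      have h3 := exp_const J t (N ^ k * e)
      unfold stirExp at h3 ⊢
      simp only [mul_add, Finset.sum_add_distrib]
      rw [h3]
    rw [h1, h2]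
    refine exp_mono hJ ht fun g => ?_
    refine (Finset.sum_le_sum fun b _ => hup g b).trans ?_
    rw [Finset.sum_add_distrib]
    exact add_le_add le_rfl (hch g)
  have hPl : ∑ b : Fin k → V,
      stirExp J t (fun g => ind ((u - e) * k - 1) (sz (rel g (Function.update b i x)) i)) ≤
        N ^ k * stirExp J t I + N ^ k * e := by
    have h1 : N ^ k * stirExp J t I + N ^ k * e =
        stirExp J t (fun g => ∑ _b : Fin k → V, I g + N ^ k * e) := by
      have h3 := exp_const J t (N ^ k * e)
      have h4 := exp_sum J t (univ : Finset (Fin k → V)) (fun _ => I)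
      rw [Finset.sum_const, nsmul_eq_mul, hcard] at h4
      rw [h4]
      unfold stirExp at h3 ⊢
      simp only [mul_add, Finset.sum_add_distrib]
      rw [h3]
    rw [h1, exp_sum]
    refine exp_mono hJ ht fun g => ?_
    refine (Finset.sum_le_sum fun b _ => hlo g b).trans ?_
    rw [Finset.sum_add_distrib]
    exact add_le_add le_rfl (hch g)
  have hua : uni k (fun R => ind ((u + e) * k + 1) (sz R i)) ≤ u + e + e := by
    rw [uni_ind, div_le_iff₀ hkR]
    refine (sum_ind_le k _ (by positivity)).trans ?_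
    have h1 : 2 ≤ e * k := by rwa [div_le_iff₀ hkR] at hk2
    linarith
  have hla : u - e - e ≤ uni k (fun R => ind ((u - e) * k - 1) (sz R i)) := by
    rw [uni_ind, le_div_iff₀ hkR]
    refine le_trans ?_ (le_sum_ind k _ ?_)
    · have h1 : 2 ≤ e * k := by rwa [div_le_iff₀ hkR] at hk2
      linarith
    · nlinarith
  have hau := abs_le.1 (hav ((u + e) * k + 1))
  have hal := abs_le.1 (hav ((u - e) * k - 1))
  have hfin1 : N ^ k * stirExp J t I ≤ N ^ k * (u + 5 * e) := by
    have h1 := mul_le_mul_of_nonneg_left hua hNk0.le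
    linarith [hau.2, hPu]
  have hfin2 : N ^ k * (u - 5 * e) ≤ N ^ k * stirExp J t I := by
    have h1 := mul_le_mul_of_nonneg_left hla hNk0.le
    linarith [hal.1, hPl]
  have hf1 := le_of_mul_le_mul_left hfin1 hNk0
  have hf2 := le_of_mul_le_mul_left hfin2 hNk0
  rw [hI] at hf1 hf2
  rw [abs_le]
  constructor
  · rw [he] at hf2
    linarith
  · rw [he] at hf1
    linarith

end Run7.h321.LC
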